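import Pool.Agent.Lib.MP_685115_al.Dihedral

/-! Finite orbits of proper irreducible parabolic subgroups of Artin-Tits groups of
spherical type, under conjugation by the powers of one element. -/

namespace Pool.Agent.Results.MP_685115_al.FiniteOrbits

open Pool.Agent.MP685115

/-- Part 1: for every Artin group of spherical type, a finite orbit of a vertex under `α` has a
size dividing the order of the image of `α` in the finite Coxeter group. Part 2: one bound for
all groups of rank `n` with labels at most `L`. Part 3: one bound for all irreducible groups of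
rank `n`, for each `n` at least three. Part 4: no bound for all groups of rank two. -/
theorem result :
    (∀ (B : Type) [Finite B] (M : CoxeterMatrix B) [Finite M.Group] (α : AG M)
      (P : Subgroup (AG M)), IsVertex M P → (orb α P).Finite →
        (orb α P).ncard ∣ orderOf (piG M α)) ∧
    (∀ n L : ℕ, ∃ N : ℕ, ∀ M : CoxeterMatrix (Fin n), Finite M.Group → (∀ s t, M s t ≤ L) →
      ∀ (α : AG M) (P : Subgroup (AG M)), IsVertex M P → (orb α P).Finite →
        (orb α P).ncard ≤ N) ∧
    (∀ n : ℕ, 3 ≤ n → ∃ N : ℕ, ∀ M : CoxeterMatrix (Fin n), Finite M.Group →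
      Irr M Set.univ → ∀ (α : AG M) (P : Subgroup (AG M)), IsVertex M P → (orb α P).Finite →
        (orb α P).ncard ≤ N) ∧
    (∀ N : ℕ, ∃ M : CoxeterMatrix (Fin 2), Finite M.Group ∧
      ∃ (α : AG M) (P : Subgroup (AG M)), IsVertex M P ∧ (orb α P).Finite ∧
        N < (orb α P).ncard) := by
  refine ⟨?_, uniform_labels, uniform_irr, rank_two⟩
  intro B _ M _ α P hP hfin
  obtain ⟨X, g, -, hX, rfl⟩ := hP
  exact orb_dvd M hX g α hfin

end Pool.Agent.Results.MP_685115_al.FiniteOrbits
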